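import Pool.Agent.U173.PQ.Defs

/-!
# Hodge classes and Tate classes: definitions
-/

set_option autoImplicit false

open CategoryTheory AlgebraicGeometry

universe u

namespace Pool.Agent.U173.MT

open Pool.Agent.H914 Pool.Agent.H914.VarClass Pool.Agent.H914.VarClass.Obj
  Pool.Agent.H914.WeilCohomology Pool.Agent.H281R3.HT Pool.Agent.TH125.Gal
  Pool.Agent.U173.PT Pool.Agent.U173.PQ

section Alg

variable {K₀ K A₀ A B₀ B : Type} [Field K₀] [Field K] [Ring A₀] [Algebra K₀ A₀] [Ring A]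
  [Algebra K A] [Ring B₀] [Algebra K₀ B₀] [Ring B] [Algebra K B]

/-- The homomorphism `f` is semilinear and compatible with the traces and the cycle classes. -/
structure IsRingComparison {C : Type u} [AddCommGroup C] (σ : K₀ →+* K) (f : A₀ →+* A)
    (tr₀ : A₀ →ₗ[K₀] K₀) (tr : A →ₗ[K] K) (cl₀ : C →+ A₀) (cl : C →+ A) : Prop where
  smul : ∀ (r : K₀) (a : A₀), f (r • a) = σ r • f a
  trace : ∀ a : A₀, tr (f a) = σ (tr₀ a)
  cycle : ∀ z : C, f (cl₀ z) = cl z

/-- A commutative square of homomorphisms. -/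
def Commutes (g₀ : B₀ →ₐ[K₀] A₀) (g : B →ₐ[K] A) (f : A₀ →+* A) (f' : B₀ →+* B) : Prop :=
  ∀ b, f (g₀ b) = g (f' b)

end Alg

section Act

variable {K K₁ A₀ A A₁ : Type} [Field K] [Field K₁] [Ring A₀] [Ring A] [Algebra K A] [Ring A₁]
  [Algebra K₁ A₁] {Γ G : Type} [Group Γ] [Group G]

/-- The Tate classes in `A` of codimension `n` (degree `2 n`, multiplied by `χ ^ n` by a subgroup of finite
index of `Γ`) are linear combinations of images of the Hodge classes of codimension `n`: the elements of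
`A₀` whose image in `A₁` has the degree `2 n` and is multiplied by `ψ ^ n` by a subgroup of finite index
of `G`. -/
def TateInHodgeAct (χ : Γ →* Kˣ) (gr : ℕ → Submodule K A) (ρ : Γ →* (A ≃ₐ[K] A)) (c : A₀ →+* A)
    (ψ : G →* K₁ˣ) (gr₁ : ℕ → Submodule K₁ A₁) (η : G →* (A₁ ≃ₐ[K₁] A₁)) (d : A₀ →+* A₁) : Prop :=
  ∀ (n : ℕ) (a : A), IsTateAct χ gr ρ n a →
    a ∈ Submodule.span K (c '' {x | IsTateAct ψ gr₁ η n (d x)})

/-- The images in `A` of the Hodge classes of codimension `n` are linear combinations of Tate classes of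
codimension `n`. -/
def HodgeInTateAct (χ : Γ →* Kˣ) (gr : ℕ → Submodule K A) (ρ : Γ →* (A ≃ₐ[K] A)) (c : A₀ →+* A)
    (ψ : G →* K₁ˣ) (gr₁ : ℕ → Submodule K₁ A₁) (η : G →* (A₁ ≃ₐ[K₁] A₁)) (d : A₀ →+* A₁) : Prop :=
  ∀ (n : ℕ) (x : A₀), IsTateAct ψ gr₁ η n (d x) →
    c x ∈ Submodule.span K {a | IsTateAct χ gr ρ n a}

end Act

variable {k : Type u} [Field k] {𝒱 : VarClass k} {ops : CycleOps 𝒱}

/-- A homomorphism of the coefficient fields and of the cohomology rings. -/
structure Comparison (W₀ W : WeilCohomology.{u, 0} ops) where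
  coeff : W₀.K →+* W.K
  map : ∀ A : 𝒱.Obj, W₀.H A →+* W.H A

/-- The comparison is semilinear and compatible with traces, classes of cycles and pull-backs. -/
structure IsComparison {W₀ W : WeilCohomology.{u, 0} ops} (c : Comparison W₀ W) : Prop where
  ring : ∀ A : 𝒱.Obj, IsRingComparison c.coeff (c.map A) (W₀.tr A) (W.tr A) (W₀.cl A) (W.cl A)
  pull : ∀ {A B : 𝒱.Obj} (f : A ⟶ B), Commutes (W₀.map f) (W.map f) (c.map A) (c.map B)

/-- The actions of `Γ` on the cohomology of `A`. -/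
def Act (W : WeilCohomology.{u, 0} ops) (Γ : Type) [Group Γ] (A : 𝒱.Obj) : Type :=
  Γ →* (W.H A ≃ₐ[W.K] W.H A)

/-- The pull-back by `f` is compatible with the actions. -/
def Compatible {W : WeilCohomology.{u, 0} ops} {Γ : Type} [Group Γ] {A C : 𝒱.Obj} (f : C ⟶ A)
    (α : Act W Γ A) (γ : Act W Γ C) : Prop :=
  Intertwines (W.map f) α γ

/-- Compatible actions of the group `G` on the cohomology `W` of all varieties, with the formal
properties of the action of the torus which defines the Hodge decomposition. -/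
structure IsHodgeAction {W : WeilCohomology.{u, 0} ops} {G : Type} [Group G] (ψ : G →* W.Kˣ)
    (η : ∀ A : 𝒱.Obj, Act W G A) : Prop where
  galois : ∀ A : 𝒱.Obj, IsGaloisVar ψ (⟨A, η A⟩ : GVar W G)
  natural : ∀ {A B : 𝒱.Obj} (f : A ⟶ B), Compatible f (η B) (η A)

variable {W₀ W₁ W : WeilCohomology.{u, 0} ops} {Γ : Type} [Group Γ]

/-- `V` is the product of `A` and `B`, with an action on the cohomology which is compatible with the
projections. -/
inductive IsPair (A B : GVar W Γ) : GVar W Γ → Prop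
  | mk (υ : Act W Γ (A.X.prod B.X)) :
      Compatible (fst A.X B.X) A.act υ → Compatible (snd A.X B.X) B.act υ →
      IsPair A B ⟨A.X.prod B.X, υ⟩

/-- `V` is the product of the varieties `X i`, `i` in the list, and of `Z`. -/
inductive IsIterated {I : Type} (X : I → GVar W Γ) (Z : GVar W Γ) : List I → GVar W Γ → Prop
  | nil : IsIterated X Z [] Z
  | cons {i : I} {l : List I} {B V : GVar W Γ} :
      IsIterated X Z l B → IsPair (X i) B V → IsIterated X Z (i :: l) V

/-- All Tate classes on `A` are linear combinations of images of Hodge classes. -/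
def TateIsHodge (c : Comparison W₀ W) (d : Comparison W₀ W₁) {G : Type} [Group G] (ψ : G →* W₁.Kˣ)
    (η : ∀ A : 𝒱.Obj, Act W₁ G A) (χ : Γ →* W.Kˣ) (A : GVar W Γ) : Prop :=
  TateInHodgeAct χ (W.gr A.X) A.act (c.map A.X) ψ (W₁.gr A.X) (η A.X) (d.map A.X)

/-- The images of all Hodge classes on `A` are linear combinations of Tate classes. -/
def HodgeIsTate (c : Comparison W₀ W) (d : Comparison W₀ W₁) {G : Type} [Group G] (ψ : G →* W₁.Kˣ)
    (η : ∀ A : 𝒱.Obj, Act W₁ G A) (χ : Γ →* W.Kˣ) (A : GVar W Γ) : Prop :=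
  HodgeInTateAct χ (W.gr A.X) A.act (c.map A.X) ψ (W₁.gr A.X) (η A.X) (d.map A.X)

end Pool.Agent.U173.MT
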