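import Pool.Agent.U173.CF.Main
import Pool.Agent.U173.DN.Main
import Pool.Agent.U173.MT.Defs

/-!
# Tate classes and systems of rational classes
-/

set_option autoImplicit false
set_option linter.unusedSectionVars false

open CategoryTheory AlgebraicGeometry

universe u

namespace Pool.Agent.U173.MT

open Pool.Agent.H914 Pool.Agent.H914.VarClass Pool.Agent.H914.VarClass.Obj
  Pool.Agent.H914.WeilCohomology Pool.Agent.H281R3.HT Pool.Agent.TH125.Gal
  Pool.Agent.U173.PT Pool.Agent.U173.PQ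
open Pool.Agent.U173.CF (slice₁ slice₂ slice₁_apply slice₂_apply slice₁_pull slice₂_pull slice₁_tate
  slice₂_tate pull_tate mul_tate mul_mem_of tateSpace slice₁_space slice₂_space slice₁_onto
  slice₂_onto Pt)

variable {k : Type u} [Field k] {𝒱 : VarClass k} {ops : CycleOps 𝒱}

section comparison

variable {W₀ W : WeilCohomology.{u, 0} ops} {c : Comparison W₀ W} (hc : IsComparison c)

include hc

theorem IsComparison.map_pull {A B : 𝒱.Obj} (f : A ⟶ B) (b : W₀.H B) :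
    c.map A (W₀.map f b) = W.map f (c.map B b) := hc.pull f b

theorem comp_slice₁ (A B : 𝒱.Obj) (z : B.Cycles) (u : W₀.H (A.prod B)) :
    c.map A (slice₁ W₀ A B z u) = slice₁ W A B z (c.map (A.prod B) u) := by
  refine kun_ext (L := fun u => c.map A (slice₁ W₀ A B z u))
    (L' := fun u => slice₁ W A B z (c.map (A.prod B) u)) (fun a b => by simp only [map_add])
    (fun a b => by simp only [map_add]) (fun a b => ?_) u
  simp only [slice₁_apply, (hc.ring _).smul, map_mul, hc.map_pull]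
  rw [← (hc.ring _).trace, map_mul, (hc.ring _).cycle]

theorem comp_slice₂ (A B : 𝒱.Obj) (z : A.Cycles) (u : W₀.H (A.prod B)) :
    c.map B (slice₂ W₀ A B z u) = slice₂ W A B z (c.map (A.prod B) u) := by
  refine kun_ext (L := fun u => c.map B (slice₂ W₀ A B z u))
    (L' := fun u => slice₂ W A B z (c.map (A.prod B) u)) (fun a b => by simp only [map_add])
    (fun a b => by simp only [map_add]) (fun a b => ?_) u
  simp only [slice₂_apply, (hc.ring _).smul, map_mul, hc.map_pull]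
  rw [← (hc.ring _).trace, map_mul, (hc.ring _).cycle]

end comparison

/-- `C A n` is a set of classes of codimension `n` on `A`; these sets are stable under pull-backs,
products, and integration over one factor of a product against a zero-cycle. -/
structure IsClassSystem (W₀ : WeilCohomology.{u, 0} ops)
    (C : ∀ A : 𝒱.Obj, ℕ → Set (W₀.H A)) : Prop where
  pull : ∀ {A B : 𝒱.Obj} (f : A ⟶ B) (n : ℕ), ∀ b ∈ C B n, W₀.map f b ∈ C A n
  mul : ∀ (A : 𝒱.Obj) (m n : ℕ), ∀ a ∈ C A m, ∀ b ∈ C A n, a * b ∈ C A (m + n)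
  slice_fst : ∀ (A B : 𝒱.Obj) (z : B.Cycles), B.IsCyc B.dim z → ∀ (n : ℕ), ∀ u ∈ C (A.prod B) n,
    W₀.push (fst A B) (u * W₀.map (snd A B) (W₀.cl B z)) ∈ C A n
  slice_snd : ∀ (A B : 𝒱.Obj) (z : A.Cycles), A.IsCyc A.dim z → ∀ (n : ℕ), ∀ u ∈ C (A.prod B) n,
    W₀.push (snd A B) (u * W₀.map (fst A B) (W₀.cl A z)) ∈ C B n

/-- the Hodge classes -/
def hodgeClasses {W₀ W₁ : WeilCohomology.{u, 0} ops} (d : Comparison W₀ W₁) {G : Type} [Group G]
    (ψ : G →* W₁.Kˣ) (η : ∀ A : 𝒱.Obj, Act W₁ G A) (A : 𝒱.Obj) (n : ℕ) : Set (W₀.H A) :=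
  {x | IsTateAct ψ (W₁.gr A) (η A) n (d.map A x)}

/-- The Tate classes on `A` are linear combinations of images of classes in `C A`. -/
def TateIn {W₀ W : WeilCohomology.{u, 0} ops} {Γ : Type} [Group Γ] (c : Comparison W₀ W)
    (χ : Γ →* W.Kˣ) (C : ∀ A : 𝒱.Obj, ℕ → Set (W₀.H A)) (A : GVar W Γ) : Prop :=
  ∀ (n : ℕ) (a : W.H A.X), IsTateAct χ (W.gr A.X) A.act n a →
    a ∈ Submodule.span W.K (c.map A.X '' C A.X n)

/-- The images of the classes in `C A` are linear combinations of Tate classes. -/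
def InTate {W₀ W : WeilCohomology.{u, 0} ops} {Γ : Type} [Group Γ] (c : Comparison W₀ W)
    (χ : Γ →* W.Kˣ) (C : ∀ A : 𝒱.Obj, ℕ → Set (W₀.H A)) (A : GVar W Γ) : Prop :=
  ∀ (n : ℕ), ∀ x ∈ C A.X n,
    c.map A.X x ∈ Submodule.span W.K {a | IsTateAct χ (W.gr A.X) A.act n a}

/-- integration over the second factor -/
theorem push_slice₁ (W : WeilCohomology.{u, 0} ops) (A B : 𝒱.Obj) {z : B.Cycles}
    (hz : B.IsCyc B.dim z) (u : W.H (A.prod B)) :
    W.push (fst A B) (u * W.map (snd A B) (W.cl B z)) = slice₁ W A B z u := by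
  refine W.kunneth_induction (p := fun u =>
    W.push (fst A B) (u * W.map (snd A B) (W.cl B z)) = slice₁ W A B z u) ?_ ?_ u
  · intro a b ha hb
    rw [add_mul, map_add, map_add, ha, hb]
  · intro i j a _ b hb
    rw [mul_assoc, ← map_mul, push_fst a (W.mul_mem hb (W.cl_mem hz)), slice₁_apply]

/-- integration over the first factor -/
theorem push_slice₂ (W : WeilCohomology.{u, 0} ops) (A B : 𝒱.Obj) {z : A.Cycles}
    (hz : A.IsCyc A.dim z) (u : W.H (A.prod B)) :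
    W.push (snd A B) (u * W.map (fst A B) (W.cl A z)) = slice₂ W A B z u := by
  refine W.kunneth_induction (p := fun u =>
    W.push (snd A B) (u * W.map (fst A B) (W.cl A z)) = slice₂ W A B z u) ?_ ?_ u
  · intro a b ha hb
    rw [add_mul, map_add, map_add, ha, hb]
  · intro i j a _ b _
    rw [← W.even_comm (W.map_mem (fst A B) (W.cl_mem hz)), ← mul_assoc, ← map_mul,
      W.even_comm (W.cl_mem hz), W.push_snd, slice₂_apply]

/-- **The Hodge classes are a system.** -/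
theorem hodge_system {W₀ W₁ : WeilCohomology.{u, 0} ops} {d : Comparison W₀ W₁}
    (hd : IsComparison d) {G : Type} [Group G] {ψ : G →* W₁.Kˣ} {η : ∀ A : 𝒱.Obj, Act W₁ G A}
    (hη : IsHodgeAction ψ η) : IsClassSystem W₀ (hodgeClasses d ψ η) where
  pull {A B} f n b hb := by
    change IsTateAct ψ (W₁.gr A) (η A) n (d.map A (W₀.map f b))
    rw [hd.map_pull]
    exact pull_tate (A := (⟨B, η B⟩ : GVar W₁ G)) (C := (⟨A, η A⟩ : GVar W₁ G)) (f := f)
      (hη.natural f) hb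
  mul A m n a ha b hb := by
    change IsTateAct ψ (W₁.gr A) (η A) (m + n) (d.map A (a * b))
    rw [map_mul]
    exact mul_tate (C := (⟨A, η A⟩ : GVar W₁ G)) ha hb
  slice_fst A B z hz n u hu := by
    change IsTateAct ψ (W₁.gr A) (η A) n (d.map A _)
    rw [push_slice₁ W₀ A B hz, comp_slice₁ hd]
    exact slice₁_tate (A := (⟨A, η A⟩ : GVar W₁ G)) (B := (⟨B, η B⟩ : GVar W₁ G))
      (hη.galois B) hz (hη.natural (fst A B)) (hη.natural (snd A B)) hu
  slice_snd A B z hz n u hu := by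
    change IsTateAct ψ (W₁.gr B) (η B) n (d.map B _)
    rw [push_slice₂ W₀ A B hz, comp_slice₂ hd]
    exact slice₂_tate (A := (⟨A, η A⟩ : GVar W₁ G)) (B := (⟨B, η B⟩ : GVar W₁ G))
      (hη.galois A) hz (hη.natural (fst A B)) (hη.natural (snd A B)) hu

section step

variable {W₀ W : WeilCohomology.{u, 0} ops} {Γ : Type} [Group Γ] {χ : Γ →* W.Kˣ}
  {c : Comparison W₀ W} {C : ∀ A : 𝒱.Obj, ℕ → Set (W₀.H A)}

theorem TateIn.span {A : GVar W Γ} (h : TateIn c χ C A) {n : ℕ} {a : W.H A.X}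
    (ha : a ∈ tateSpace χ A n) : a ∈ Submodule.span W.K (c.map A.X '' C A.X n) :=
  Submodule.span_le.2 (fun x hx => h n x hx) ha

variable {A B : GVar W Γ} {υ : Γ →* (W.H (A.X.prod B.X) ≃ₐ[W.K] W.H (A.X.prod B.X))}

theorem tateIn_prod (hc : IsComparison c) (hC : IsClassSystem W₀ C)
    (hprod : ProductAct χ (W.map (fst A.X B.X)) (W.map (snd A.X B.X)) (W.gr A.X) A.act
      (W.gr B.X) B.act (W.gr (A.X.prod B.X)) υ) (hA : TateIn c χ C A) (hB : TateIn c χ C B) :
    TateIn c χ C (⟨A.X.prod B.X, υ⟩ : GVar W Γ) := by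
  intro n u hu
  refine Submodule.span_le.2 ?_ (hprod n u hu)
  rintro _ ⟨e, he, a, ha, b, hb, rfl⟩
  refine mul_mem_of (A := A.X) (B := B.X) ?_ (hA e a ha) (hB (n - e) b hb)
  rintro _ ⟨s, hs, rfl⟩ _ ⟨t, ht, rfl⟩
  refine Submodule.subset_span ⟨W₀.map (fst A.X B.X) s * W₀.map (snd A.X B.X) t, ?_, ?_⟩
  · have h := hC.mul (A.X.prod B.X) e (n - e) _ (hC.pull (fst A.X B.X) e s hs) _
      (hC.pull (snd A.X B.X) (n - e) t ht)
    rwa [Nat.add_sub_cancel' he] at h
  · rw [map_mul, hc.map_pull, hc.map_pull]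

theorem tateIn_fst (hc : IsComparison c) (hC : IsClassSystem W₀ C)
    (h1 : Intertwines (W.map (fst A.X B.X)) A.act υ) (hB : Pt B.X)
    (h : TateIn c χ C (⟨A.X.prod B.X, υ⟩ : GVar W Γ)) : TateIn c χ C A := by
  intro n a ha
  obtain ⟨z, hz, h0⟩ := hB
  obtain ⟨u, hu, hua⟩ := slice₁_onto (B := B) h1 hz h0 (Submodule.subset_span ha)
  rw [← hua]
  have h3 := h.span hu
  have h4 : slice₁ W A.X B.X z u ∈
      (Submodule.span W.K (c.map (A.X.prod B.X) '' C (A.X.prod B.X) n)).map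
        (slice₁ W A.X B.X z) := ⟨u, h3, rfl⟩
  rw [Submodule.map_span] at h4
  refine Submodule.span_mono ?_ h4
  rintro _ ⟨_, ⟨x, hx, rfl⟩, rfl⟩
  refine ⟨slice₁ W₀ A.X B.X z x, ?_, comp_slice₁ hc A.X B.X z x⟩
  rw [← push_slice₁ W₀ A.X B.X hz]
  exact hC.slice_fst A.X B.X z hz n x hx

theorem tateIn_snd (hc : IsComparison c) (hC : IsClassSystem W₀ C)
    (h2 : Intertwines (W.map (snd A.X B.X)) B.act υ) (hA : Pt A.X)
    (h : TateIn c χ C (⟨A.X.prod B.X, υ⟩ : GVar W Γ)) : TateIn c χ C B := by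
  intro n b hb
  obtain ⟨z, hz, h0⟩ := hA
  obtain ⟨u, hu, hub⟩ := slice₂_onto (A := A) h2 hz h0 (Submodule.subset_span hb)
  rw [← hub]
  have h3 := h.span hu
  have h4 : slice₂ W A.X B.X z u ∈
      (Submodule.span W.K (c.map (A.X.prod B.X) '' C (A.X.prod B.X) n)).map
        (slice₂ W A.X B.X z) := ⟨u, h3, rfl⟩
  rw [Submodule.map_span] at h4
  refine Submodule.span_mono ?_ h4
  rintro _ ⟨_, ⟨x, hx, rfl⟩, rfl⟩
  refine ⟨slice₂ W₀ A.X B.X z x, ?_, comp_slice₂ hc A.X B.X z x⟩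
  rw [← push_slice₂ W₀ A.X B.X hz]
  exact hC.slice_snd A.X B.X z hz n x hx

theorem inTate_fst (hc : IsComparison c) (hC : IsClassSystem W₀ C)
    (hprod : ProductAct χ (W.map (fst A.X B.X)) (W.map (snd A.X B.X)) (W.gr A.X) A.act
      (W.gr B.X) B.act (W.gr (A.X.prod B.X)) υ) (hB : Pt B.X)
    (h : InTate c χ C (⟨A.X.prod B.X, υ⟩ : GVar W Γ)) : InTate c χ C A := by
  intro n x hx
  obtain ⟨z, hz, h0⟩ := hB
  have h3 := h n _ (hC.pull (fst A.X B.X) n x hx)
  have h4 := slice₁_space hprod hz h3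
  have hne : ((B.X.V.degCycle z : ℚ) : W.K) ≠ 0 := Rat.cast_ne_zero.2 h0
  change slice₁ W A.X B.X z (c.map (A.X.prod B.X) (W₀.map (fst A.X B.X) x)) ∈ _ at h4
  rw [hc.map_pull, slice₁_pull hz] at h4
  have h5 := Submodule.smul_mem _ ((B.X.V.degCycle z : ℚ) : W.K)⁻¹ h4
  rwa [smul_smul, inv_mul_cancel₀ hne, one_smul] at h5

theorem inTate_snd (hc : IsComparison c) (hC : IsClassSystem W₀ C)
    (hprod : ProductAct χ (W.map (fst A.X B.X)) (W.map (snd A.X B.X)) (W.gr A.X) A.act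
      (W.gr B.X) B.act (W.gr (A.X.prod B.X)) υ) (hA : Pt A.X)
    (h : InTate c χ C (⟨A.X.prod B.X, υ⟩ : GVar W Γ)) : InTate c χ C B := by
  intro n x hx
  obtain ⟨z, hz, h0⟩ := hA
  have h3 := h n _ (hC.pull (snd A.X B.X) n x hx)
  have h4 := slice₂_space hprod hz h3
  have hne : ((A.X.V.degCycle z : ℚ) : W.K) ≠ 0 := Rat.cast_ne_zero.2 h0
  change slice₂ W A.X B.X z (c.map (A.X.prod B.X) (W₀.map (snd A.X B.X) x)) ∈ _ at h4
  rw [hc.map_pull, slice₂_pull hz] at h4
  have h5 := Submodule.smul_mem _ ((A.X.V.degCycle z : ℚ) : W.K)⁻¹ h4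
  rwa [smul_smul, inv_mul_cancel₀ hne, one_smul] at h5

end step

section tower

variable {W₀ W : WeilCohomology.{u, 0} ops} {Γ : Type} [Group Γ] {χ : Γ →* W.Kˣ}
  {c : Comparison W₀ W} {C : ∀ A : 𝒱.Obj, ℕ → Set (W₀.H A)} {I I' : Type}
  {P : I → Set (Place Γ)} {E L : I → Place Γ → IntermediateField ℚ (AlgebraicClosure ℚ)}
  {X : I → GVar W Γ} {Y : I' → GVar W Γ} {Z : GVar W Γ} {l : List I} {l' : List I'}

/-- **Towers.** -/
theorem tower [IsAlgClosed W.K] (hc : IsComparison c) (hC : IsClassSystem W₀ C)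
    (h : IsProductSystem χ P E L X Y Z l l') {B' V : GVar W Γ} (hB' : IsProductOf Y Z l' B')
    (hV : IsProductOf X B' l V) :
    (TateIn c χ C V ↔ (∀ i ∈ l, TateIn c χ C (X i)) ∧ TateIn c χ C B') ∧
      (InTate c χ C V → (∀ i ∈ l, InTate c χ C (X i)) ∧ InTate c χ C B') := by
  induction hV with
  | nil => simp
  | @cons i l B V hB hV ih =>
    obtain ⟨υ, h1, h2⟩ := hV
    have hprod := h.areProducts hB' hB υ h1 h2
    have hPX : Pt (X i).X := Pool.Agent.U173.CF.Pt.of (h.point i)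
    have hPB : Pt B.X := Pool.Agent.U173.CF.Pt.of (hasPoint_product hB h.point (hasPoint_product hB' h.point_others
      h.point_base))
    obtain ⟨ih1, ih2⟩ := ih h.tail
    constructor
    · rw [List.forall_mem_cons, and_assoc, ← ih1]
      exact ⟨fun hT => ⟨tateIn_fst hc hC h1 hPB hT, tateIn_snd hc hC h2 hPX hT⟩,
        fun hT => tateIn_prod hc hC hprod hT.1 hT.2⟩
    · intro hI
      rw [List.forall_mem_cons, and_assoc]
      exact ⟨inTate_fst hc hC hprod hPB hI, ih2 (inTate_snd hc hC hprod hPX hI)⟩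

theorem IsIterated.productOf {X : I → GVar W Γ} {Z : GVar W Γ} {l : List I} {V : GVar W Γ}
    (h : IsIterated X Z l V) : IsProductOf X Z l V := by
  induction h with
  | nil => exact .nil
  | @cons i l B V hB hV ih =>
    obtain ⟨υ, h1, h2⟩ := hV
    exact IsProductOf.cons ih (IsProdVar.mk (A := X i) (B := B) υ h1 h2)

/-- **The main theorem.** -/
theorem main [IsAlgClosed W.K] {W₁ : WeilCohomology.{u, 0} ops} (hc : IsComparison c)
    {d : Comparison W₀ W₁} (hd : IsComparison d) {G : Type} [Group G] {ψ : G →* W₁.Kˣ}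
    {η : ∀ A : 𝒱.Obj, Act W₁ G A} (hη : IsHodgeAction ψ η)
    (h : IsProductSystem χ P E L X Y Z l l') {B' V : GVar W Γ} (hB' : IsIterated Y Z l' B')
    (hV : IsIterated X B' l V) :
    (TateIsHodge c d ψ η χ V ↔
      (∀ i ∈ l, TateIsHodge c d ψ η χ (X i)) ∧ TateIsHodge c d ψ η χ B') ∧
      (HodgeIsTate c d ψ η χ V →
        (∀ i ∈ l, HodgeIsTate c d ψ η χ (X i)) ∧ HodgeIsTate c d ψ η χ B') :=
  tower hc (hodge_system hd hη) h hB'.productOf hV.productOf

end tower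

end Pool.Agent.U173.MT
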